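import Pool.Agent.H261R3.LN.LStmts

/-! Task Lift of project LM: 1-Lipschitz maps on hyperbolic space lift to 1-Lipschitz maps. -/

set_option autoImplicit false

open Filter Topology Set

namespace Pool.Agent.H878.LN

open Pool.Agent.H261R3.LN

/-- the hyperbolic cosine of the distance -/
noncomputable def arg {m : ℕ} (z w : Hyp m) : ℝ :=
  1 + (‖z.x - w.x‖ ^ 2 + (z.y - w.y) ^ 2) / (2 * z.y * w.y)

theorem one_le_arg {m : ℕ} (z w : Hyp m) : 1 ≤ arg z w := by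
  have h1 := z.pos
  have h2 := w.pos
  unfold arg
  have : 0 ≤ (‖z.x - w.x‖ ^ 2 + (z.y - w.y) ^ 2) / (2 * z.y * w.y) := by positivity
  linarith

theorem hdist_eq {m : ℕ} (z w : Hyp m) : hdist z w = Real.arcosh (arg z w) := rfl

theorem cosh_hdist {m : ℕ} (z w : Hyp m) : Real.cosh (hdist z w) = arg z w :=
  Real.cosh_arcosh (one_le_arg z w)

theorem hdist_nonneg {m : ℕ} (z w : Hyp m) : 0 ≤ hdist z w :=
  Real.arcosh_nonneg (one_le_arg z w)

theorem eq_of_hdist {m : ℕ} (z w : Hyp m) (h : hdist z w = 0) : z = w := by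
  rw [hdist_eq, Real.arcosh_eq_zero_iff (one_le_arg z w)] at h
  have h1 := z.pos
  have h2 := w.pos
  unfold arg at h
  have h3 : (‖z.x - w.x‖ ^ 2 + (z.y - w.y) ^ 2) / (2 * z.y * w.y) = 0 := by linarith
  have h4 : ‖z.x - w.x‖ ^ 2 + (z.y - w.y) ^ 2 = 0 := by
    rcases div_eq_zero_iff.1 h3 with h | h
    · exact h
    · have : 0 < 2 * z.y * w.y := by positivity
      linarith
  have h5 : ‖z.x - w.x‖ ^ 2 = 0 := by
    have := sq_nonneg ‖z.x - w.x‖
    have := sq_nonneg (z.y - w.y)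
    linarith
  have h6 : (z.y - w.y) ^ 2 = 0 := by
    have := sq_nonneg ‖z.x - w.x‖
    have := sq_nonneg (z.y - w.y)
    linarith
  have h7 : z.x = w.x := by
    have := pow_eq_zero_iff (two_ne_zero) |>.1 h5
    exact sub_eq_zero.1 (norm_eq_zero.1 this)
  have h8 : z.y = w.y := by
    have := pow_eq_zero_iff (two_ne_zero) |>.1 h6
    linarith
  cases z
  cases w
  simp only at h7 h8
  subst h7
  subst h8
  rfl

/-- coordinates -/
noncomputable def Phi {m : ℕ} (u : EuclideanSpace ℝ (Fin m) × ℝ) : Hyp m :=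
  ⟨u.1, Real.exp u.2, Real.exp_pos _⟩

/-- inverse coordinates -/
noncomputable def Psi {m : ℕ} (z : Hyp m) : EuclideanSpace ℝ (Fin m) × ℝ := (z.x, Real.log z.y)

theorem Phi_Psi {m : ℕ} (z : Hyp m) : Phi (Psi z) = z := by
  cases z with
  | mk x y hy => simp [Phi, Psi, Real.exp_log hy]

theorem tendsto_hdist {m : ℕ} (u0 : EuclideanSpace ℝ (Fin m) × ℝ) :
    Tendsto (fun u => hdist (Phi u) (Phi u0)) (𝓝 u0) (𝓝 0) := by
  have hg : Continuous (fun u : EuclideanSpace ℝ (Fin m) × ℝ => arg (Phi u) (Phi u0)) := by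
    unfold arg Phi
    refine continuous_const.add (Continuous.div (by fun_prop) (by fun_prop) ?_)
    intro u
    have h1 := Real.exp_pos u.2
    have h2 := Real.exp_pos u0.2
    positivity
  have h1 : Continuous (fun u : EuclideanSpace ℝ (Fin m) × ℝ => hdist (Phi u) (Phi u0)) :=
    Real.continuousOn_arcosh.comp_continuous hg (fun u => one_le_arg _ _)
  have h2 : hdist (Phi u0) (Phi u0) = 0 := by
    rw [hdist_eq, Real.arcosh_eq_zero_iff (one_le_arg _ _)]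
    simp [arg]
  have := h1.tendsto u0
  rwa [h2] at this

theorem cont_comp {m : ℕ} {S : Type} [MetricSpace S] (F : Hyp m → S)
    (hF : ∀ z w, dist (F z) (F w) ≤ hdist z w) : Continuous (fun u => F (Phi u)) := by
  rw [continuous_iff_continuousAt]
  intro u0
  rw [ContinuousAt, tendsto_iff_dist_tendsto_zero]
  exact squeeze_zero (fun u => dist_nonneg) (fun u => hF _ _) (tendsto_hdist u0)

theorem lip_of_local {E : Type} [MetricSpace E] (d ε : ℝ) (hd : 0 ≤ d) (hε : 0 < ε) (h : ℝ → E)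
    (hc : ContinuousOn h (Icc 0 d))
    (hl : ∀ s ∈ Icc (0 : ℝ) d, ∀ t ∈ Icc (0 : ℝ) d, dist (h s) (h t) < ε →
      dist (h s) (h t) ≤ |s - t|) : dist (h 0) (h d) ≤ d := by
  have huc := isCompact_Icc.uniformContinuousOn_of_continuous hc
  rw [Metric.uniformContinuousOn_iff] at huc
  obtain ⟨δ, hδ, hu⟩ := huc ε hε
  obtain ⟨N, hN⟩ := exists_nat_gt (d / δ)
  have hN0 : (0 : ℝ) < N := lt_of_le_of_lt (by positivity) hN
  have hNd : d / N < δ := by
    rw [div_lt_iff₀ hN0]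
    rw [div_lt_iff₀ hδ] at hN
    linarith
  have hmem : ∀ i : ℕ, i ≤ N → (i : ℝ) * (d / N) ∈ Icc (0 : ℝ) d := by
    intro i hi
    have h1 : (i : ℝ) ≤ N := by exact_mod_cast hi
    constructor
    · positivity
    · calc (i : ℝ) * (d / N) ≤ N * (d / N) := by gcongr
        _ = d := by field_simp
  have h0 := dist_le_range_sum_dist (fun i : ℕ => h ((i : ℝ) * (d / N))) N
  have hsum : ∑ i ∈ Finset.range N, dist (h ((i : ℝ) * (d / N))) (h (((i + 1 : ℕ) : ℝ) * (d / N)))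
      ≤ ∑ _i ∈ Finset.range N, d / N := by
    apply Finset.sum_le_sum
    intro i hi
    have hi' := Finset.mem_range.1 hi
    have m1 := hmem i hi'.le
    have m2 := hmem (i + 1) hi'
    have habs : |(i : ℝ) * (d / N) - ((i + 1 : ℕ) : ℝ) * (d / N)| = d / N := by
      have : (i : ℝ) * (d / N) - ((i + 1 : ℕ) : ℝ) * (d / N) = -(d / N) := by
        push_cast; ring
      rw [this, abs_neg, abs_of_nonneg (by positivity)]
    have h3 := hl _ m1 _ m2 (hu _ m1 _ m2 (by rw [Real.dist_eq, habs]; exact hNd))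
    rwa [habs] at h3
  have hN1 : (N : ℝ) * (d / N) = d := by field_simp
  simp only [Nat.cast_zero, zero_mul, hN1] at h0
  refine h0.trans (hsum.trans ?_)
  rw [Finset.sum_const, Finset.card_range, nsmul_eq_mul, hN1]

theorem aux (x y r : ℝ) (hy : y ≠ 0) : x / (2 * y) * (y * r) = x * r / 2 := by
  field_simp

theorem alg2 (pz pw X Y I : ℝ) :
    pw / (2 * pz) * (X + 1) + pz / (2 * pw) * (Y + 1) - I =
      (pz * ((Y + 1) / pw) + pw * ((X + 1) / pz)) / 2 - I := by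
  ring

/-- the algebraic identity behind the geodesics -/
theorem alg (pz pw A1 A2 A3 C a b a' b' : ℝ) (hz : 0 < pz) (hw : 0 < pw)
    (hC : C = (pz * ((A2 + 1) / pw) + pw * ((A1 + 1) / pz)) / 2 - A3)
    (h1 : a ^ 2 + b ^ 2 + 2 * a * b * C = 1) (h2 : a' ^ 2 + b' ^ 2 + 2 * a' * b' * C = 1)
    (hp : 0 < a * pz + b * pw) (hp' : 0 < a' * pz + b' * pw) :
    (a' * pz + b' * pw) / (2 * (a * pz + b * pw)) * (a ^ 2 * A1 + 2 * a * b * A3 + b ^ 2 * A2 + 1) +
    (a * pz + b * pw) / (2 * (a' * pz + b' * pw)) *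
      (a' ^ 2 * A1 + 2 * a' * b' * A3 + b' ^ 2 * A2 + 1) -
      (a * a' * A1 + (a * b' + a' * b) * A3 + b * b' * A2) =
    a * a' + b * b' + (a * b' + a' * b) * C := by
  have hz' : pz * ((A1 + 1) / pz) = A1 + 1 := by field_simp
  have hw' : pw * ((A2 + 1) / pw) = A2 + 1 := by field_simp
  generalize (A1 + 1) / pz = Qz at *
  generalize (A2 + 1) / pw = Qw at *
  have e1 : a ^ 2 * A1 + 2 * a * b * A3 + b ^ 2 * A2 + 1 =
      (a * pz + b * pw) * (a * Qz + b * Qw) := by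
    linear_combination (-(a ^ 2)) * hz' - b ^ 2 * hw' + 2 * a * b * hC - h1
  have e2 : a' ^ 2 * A1 + 2 * a' * b' * A3 + b' ^ 2 * A2 + 1 =
      (a' * pz + b' * pw) * (a' * Qz + b' * Qw) := by
    linear_combination (-(a' ^ 2)) * hz' - b' ^ 2 * hw' + 2 * a' * b' * hC - h2
  rw [e1, e2, aux _ _ _ hp.ne', aux _ _ _ hp'.ne']
  linear_combination a * a' * hz' + b * b' * hw' - (a * b' + a' * b) * hC

/-- the point with `1 / y = p`, `x / y = ξ` -/
noncomputable def pt {m : ℕ} (p : ℝ) (ξ : EuclideanSpace ℝ (Fin m)) (hp : 0 < p) : Hyp m :=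
  ⟨p⁻¹ • ξ, p⁻¹, inv_pos.2 hp⟩

theorem arg_pt {m : ℕ} (p p' : ℝ) (ξ ξ' : EuclideanSpace ℝ (Fin m)) (hp : 0 < p) (hp' : 0 < p') :
    arg (pt p ξ hp) (pt p' ξ' hp') =
      p' / (2 * p) * (‖ξ‖ ^ 2 + 1) + p / (2 * p') * (‖ξ'‖ ^ 2 + 1) - inner ℝ ξ ξ' := by
  unfold arg pt
  simp only
  rw [norm_sub_sq_real, norm_smul, norm_smul, inner_smul_left, inner_smul_right]
  simp only [norm_inv, Real.norm_eq_abs, abs_of_pos hp, abs_of_pos hp', conj_trivial]
  field_simp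
  ring

theorem norm_comb {m : ℕ} (a b : ℝ) (u v : EuclideanSpace ℝ (Fin m)) :
    ‖a • u + b • v‖ ^ 2 = a ^ 2 * ‖u‖ ^ 2 + 2 * a * b * inner ℝ u v + b ^ 2 * ‖v‖ ^ 2 := by
  rw [norm_add_sq_real, norm_smul, norm_smul, inner_smul_left, inner_smul_right]
  simp only [Real.norm_eq_abs, mul_pow, sq_abs, conj_trivial]
  ring

theorem inner_comb {m : ℕ} (a b a' b' : ℝ) (u v : EuclideanSpace ℝ (Fin m)) :
    inner ℝ (a • u + b • v) (a' • u + b' • v) =
      a * a' * ‖u‖ ^ 2 + (a * b' + a' * b) * inner ℝ u v + b * b' * ‖v‖ ^ 2 := by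
  rw [inner_add_left, inner_add_right, inner_add_right, inner_smul_left, inner_smul_left,
    inner_smul_left, inner_smul_left, inner_smul_right, inner_smul_right, inner_smul_right,
    inner_smul_right, real_inner_self_eq_norm_sq, real_inner_self_eq_norm_sq,
    real_inner_comm u v]
  simp only [conj_trivial]
  ring

/-- existence of geodesics, continuous in the coordinates -/
theorem geodesic {m : ℕ} (z w : Hyp m) (hd : 0 < hdist z w) :
    ∃ γ : ℝ → EuclideanSpace ℝ (Fin m) × ℝ, ContinuousOn γ (Icc 0 (hdist z w)) ∧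
      γ 0 = Psi z ∧ γ (hdist z w) = Psi w ∧
      ∀ s ∈ Icc (0 : ℝ) (hdist z w), ∀ t ∈ Icc (0 : ℝ) (hdist z w),
        hdist (Phi (γ s)) (Phi (γ t)) = |s - t| := by
  set d := hdist z w with hdd
  have hS : 0 < Real.sinh d := Real.sinh_pos_iff.2 hd
  have hzy := z.pos
  have hwy := w.pos
  let a : ℝ → ℝ := fun s => Real.sinh (d - s) / Real.sinh d
  let b : ℝ → ℝ := fun s => Real.sinh s / Real.sinh d
  let P : ℝ → ℝ := fun s => a s * z.y⁻¹ + b s * w.y⁻¹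
  let ξ : ℝ → EuclideanSpace ℝ (Fin m) := fun s =>
    a s • (z.y⁻¹ • z.x) + b s • (w.y⁻¹ • w.x)
  have ha0 : ∀ s ∈ Icc (0 : ℝ) d, 0 ≤ a s := fun s hs =>
    div_nonneg (Real.sinh_nonneg_iff.2 (by linarith [hs.2])) hS.le
  have hb0 : ∀ s ∈ Icc (0 : ℝ) d, 0 ≤ b s := fun s hs =>
    div_nonneg (Real.sinh_nonneg_iff.2 hs.1) hS.le
  have hP : ∀ s ∈ Icc (0 : ℝ) d, 0 < P s := by
    intro s hs
    rcases lt_or_eq_of_le hs.2 with h | h
    · have : 0 < a s := div_pos (Real.sinh_pos_iff.2 (by linarith)) hS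
      have h2 := hb0 s hs
      show 0 < a s * z.y⁻¹ + b s * w.y⁻¹
      positivity
    · have h1 : b s = 1 := by
        show Real.sinh s / Real.sinh d = 1
        rw [h]; exact div_self hS.ne'
      have h2 := ha0 s hs
      show 0 < a s * z.y⁻¹ + b s * w.y⁻¹
      rw [h1]
      positivity
  have hcosh : Real.cosh d = arg z w := cosh_hdist z w
  have hC : Real.cosh d = (z.y⁻¹ * ((‖w.y⁻¹ • w.x‖ ^ 2 + 1) / w.y⁻¹) +
      w.y⁻¹ * ((‖z.y⁻¹ • z.x‖ ^ 2 + 1) / z.y⁻¹)) / 2 - inner ℝ (z.y⁻¹ • z.x) (w.y⁻¹ • w.x) := by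
    have e1 : z = pt z.y⁻¹ (z.y⁻¹ • z.x) (inv_pos.2 hzy) := by
      cases z with
      | mk x y hy =>
        simp only [pt, inv_inv, smul_smul]
        simp only at hzy
        rw [mul_inv_cancel₀ hy.ne', one_smul]
    have e2 : w = pt w.y⁻¹ (w.y⁻¹ • w.x) (inv_pos.2 hwy) := by
      cases w with
      | mk x y hy =>
        simp only [pt, inv_inv, smul_smul]
        simp only at hwy
        rw [mul_inv_cancel₀ hy.ne', one_smul]
    have e3 : arg z w = arg (pt z.y⁻¹ (z.y⁻¹ • z.x) (inv_pos.2 hzy))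
        (pt w.y⁻¹ (w.y⁻¹ • w.x) (inv_pos.2 hwy)) := by
      rw [← e1, ← e2]
    rw [hcosh, e3, arg_pt]
    exact alg2 _ _ _ _ _
  -- hyperbolic identities
  have hab : ∀ s t : ℝ, a s * a t + b s * b t + (a s * b t + a t * b s) * Real.cosh d =
      Real.cosh (s - t) := by
    intro s t
    show Real.sinh (d - s) / Real.sinh d * (Real.sinh (d - t) / Real.sinh d) +
      Real.sinh s / Real.sinh d * (Real.sinh t / Real.sinh d) +
      (Real.sinh (d - s) / Real.sinh d * (Real.sinh t / Real.sinh d) +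
      Real.sinh (d - t) / Real.sinh d * (Real.sinh s / Real.sinh d)) * Real.cosh d = _
    rw [Real.sinh_sub, Real.sinh_sub, Real.cosh_sub]
    have hcs := Real.cosh_sq d
    field_simp
    have hc2 : Real.cosh d ^ 2 = Real.sinh d ^ 2 + 1 := hcs
    linear_combination (-(Real.sinh s * Real.sinh t)) * hc2
  have hab1 : ∀ s : ℝ, a s ^ 2 + b s ^ 2 + 2 * a s * b s * Real.cosh d = 1 := by
    intro s
    have := hab s s
    rw [sub_self, Real.cosh_zero] at this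
    linarith
  have hnn : ∀ s, ‖ξ s‖ ^ 2 = a s ^ 2 * ‖z.y⁻¹ • z.x‖ ^ 2 +
      2 * a s * b s * inner ℝ (z.y⁻¹ • z.x) (w.y⁻¹ • w.x) + b s ^ 2 * ‖w.y⁻¹ • w.x‖ ^ 2 :=
    fun s => norm_comb _ _ _ _
  let γ : ℝ → EuclideanSpace ℝ (Fin m) × ℝ := fun s => ((P s)⁻¹ • ξ s, Real.log (P s)⁻¹)
  have hPhi : ∀ s (hs : 0 < P s), Phi (γ s) = pt (P s) (ξ s) hs := by
    intro s hs
    have h1 : Real.exp (Real.log (P s)⁻¹) = (P s)⁻¹ := Real.exp_log (inv_pos.2 hs)
    simp only [Phi, pt, γ]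
    congr 1
  have hac : Continuous a := by
    show Continuous fun s => Real.sinh (d - s) / Real.sinh d
    fun_prop
  have hbc : Continuous b := by
    show Continuous fun s => Real.sinh s / Real.sinh d
    fun_prop
  have hPc : Continuous P := by
    show Continuous fun s => a s * z.y⁻¹ + b s * w.y⁻¹
    fun_prop
  have hξc : Continuous ξ := by
    show Continuous fun s => a s • (z.y⁻¹ • z.x) + b s • (w.y⁻¹ • w.x)
    fun_prop
  have ha_0 : a 0 = 1 := by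
    show Real.sinh (d - 0) / Real.sinh d = 1
    rw [sub_zero]; exact div_self hS.ne'
  have hb_0 : b 0 = 0 := by
    show Real.sinh 0 / Real.sinh d = 0
    rw [Real.sinh_zero, zero_div]
  have ha_d : a d = 0 := by
    show Real.sinh (d - d) / Real.sinh d = 0
    rw [sub_self, Real.sinh_zero, zero_div]
  have hb_d : b d = 1 := by
    show Real.sinh d / Real.sinh d = 1
    exact div_self hS.ne'
  refine ⟨γ, ?_, ?_, ?_, ?_⟩
  · have h1 : ContinuousOn (fun s => (P s)⁻¹) (Icc 0 d) :=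
      hPc.continuousOn.inv₀ (fun s hs => (hP s hs).ne')
    exact (h1.smul hξc.continuousOn).prodMk (h1.log (fun s hs => (inv_pos.2 (hP s hs)).ne'))
  · show ((P 0)⁻¹ • ξ 0, Real.log (P 0)⁻¹) = (z.x, Real.log z.y)
    have h1 : P 0 = z.y⁻¹ := by
      show a 0 * z.y⁻¹ + b 0 * w.y⁻¹ = z.y⁻¹
      rw [ha_0, hb_0]; ring
    have h2 : ξ 0 = z.y⁻¹ • z.x := by
      show a 0 • (z.y⁻¹ • z.x) + b 0 • (w.y⁻¹ • w.x) = _
      rw [ha_0, hb_0]; simp
    rw [h1, h2, inv_inv, smul_smul, mul_inv_cancel₀ hzy.ne', one_smul]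
  · show ((P d)⁻¹ • ξ d, Real.log (P d)⁻¹) = (w.x, Real.log w.y)
    have h1 : P d = w.y⁻¹ := by
      show a d * z.y⁻¹ + b d * w.y⁻¹ = w.y⁻¹
      rw [ha_d, hb_d]; ring
    have h2 : ξ d = w.y⁻¹ • w.x := by
      show a d • (z.y⁻¹ • z.x) + b d • (w.y⁻¹ • w.x) = _
      rw [ha_d, hb_d]; simp
    rw [h1, h2, inv_inv, smul_smul, mul_inv_cancel₀ hwy.ne', one_smul]
  · intro s hs t ht
    rw [hPhi s (hP s hs), hPhi t (hP t ht), hdist_eq, arg_pt, hnn s, hnn t]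
    have hin : inner ℝ (ξ s) (ξ t) = a s * a t * ‖z.y⁻¹ • z.x‖ ^ 2 +
      (a s * b t + a t * b s) * inner ℝ (z.y⁻¹ • z.x) (w.y⁻¹ • w.x) +
        b s * b t * ‖w.y⁻¹ • w.x‖ ^ 2 := inner_comb _ _ _ _ _ _
    rw [hin]
    have key := alg z.y⁻¹ w.y⁻¹ (‖z.y⁻¹ • z.x‖ ^ 2) (‖w.y⁻¹ • w.x‖ ^ 2)
      (inner ℝ (z.y⁻¹ • z.x) (w.y⁻¹ • w.x)) (Real.cosh d) (a s) (b s) (a t) (b t)
      (inv_pos.2 hzy) (inv_pos.2 hwy) hC (hab1 s) (hab1 t) (hP s hs) (hP t ht)
    rw [hab s t] at key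
    have e : P t / (2 * P s) * (a s ^ 2 * ‖z.y⁻¹ • z.x‖ ^ 2 +
        2 * a s * b s * inner ℝ (z.y⁻¹ • z.x) (w.y⁻¹ • w.x) + b s ^ 2 * ‖w.y⁻¹ • w.x‖ ^ 2 + 1) +
        P s / (2 * P t) * (a t ^ 2 * ‖z.y⁻¹ • z.x‖ ^ 2 +
        2 * a t * b t * inner ℝ (z.y⁻¹ • z.x) (w.y⁻¹ • w.x) + b t ^ 2 * ‖w.y⁻¹ • w.x‖ ^ 2 + 1) -
        (a s * a t * ‖z.y⁻¹ • z.x‖ ^ 2 +
      (a s * b t + a t * b s) * inner ℝ (z.y⁻¹ • z.x) (w.y⁻¹ • w.x) +
        b s * b t * ‖w.y⁻¹ • w.x‖ ^ 2) = Real.cosh (s - t) := key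
    rw [e, ← Real.cosh_abs, Real.arcosh_cosh (abs_nonneg _)]

theorem taskLift : TaskLift := by
  intro m E S _ _ π hπ F hF
  obtain ⟨hcov, hsurj, ε, hε, hiso⟩ := hπ
  obtain ⟨e0, he0⟩ := hsurj (F (Phi 0))
  obtain ⟨L, ⟨-, hL⟩, -⟩ := hcov.existsUnique_continuousMap_lifts
    (⟨fun u => F (Phi u), cont_comp F hF⟩ : C(EuclideanSpace ℝ (Fin m) × ℝ, S)) 0 e0 he0
  have hL' : ∀ u, π (L u) = F (Phi u) := fun u => congrFun hL u
  refine ⟨fun z => L (Psi z), ?_, fun z => by rw [hL', Phi_Psi]⟩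
  intro z w
  rcases (hdist_nonneg z w).eq_or_lt with h0 | h0
  · have := eq_of_hdist z w h0.symm
    subst this
    rw [dist_self]
    exact hdist_nonneg _ _
  · obtain ⟨γ, hγc, hγ0, hγd, hγ⟩ := geodesic z w h0
    have := lip_of_local (hdist z w) ε h0.le hε (fun s => L (γ s))
      (L.continuous.comp_continuousOn hγc) (fun s hs t ht hst => by
        rw [← hiso _ _ hst, hL', hL', ← hγ s hs t ht]
        exact hF _ _)
    simp only [hγ0, hγd] at this
    exact this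

end Pool.Agent.H878.LN
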